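import Pool.Agent.Work.MP_7794fd_co.R.Diag
import Pool.Agent.Work.MP_7794fd_co.R.Contr
import Pool.Agent.Work.MP_7794fd_co.R.Iso
import Pool.Agent.Work.MP_7794fd_co.R.Swap
import Pool.Agent.Work.MP_7794fd_co.R.Lin
import Pool.Agent.Work.MP_7794fd_co.R.Split
import Pool.Agent.Work.MP_7794fd_co.R.Point
import Pool.Agent.Work.MP_7794fd_co.R.PointY
import Pool.Agent.Work.MP_7794fd_co.R.Root
import Pool.Agent.Work.MP_7794fd_co.R.Chord
import Pool.Agent.Work.MP_7794fd_co.R.ChordY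
import Pool.Agent.Work.MP_7794fd_co.R.Base
import Pool.Agent.Work.MP_7794fd_co.R.BaseG
import Pool.Agent.Work.MP_7794fd_co.R.Gr
import Pool.Agent.Work.MP_7794fd_co.R.OmInsert
import Pool.Agent.Work.MP_7794fd_co.R.OmSlide
import Pool.Agent.Work.MP_7794fd_co.R.OmSlideY
import Pool.Agent.Work.MP_7794fd_co.R.Om
import Pool.Agent.Work.MP_7794fd_co.R.Kernel
import Pool.Agent.Work.MP_7794fd_co.R.Pr
import Pool.Agent.Work.MP_7794fd_co.R.Core
import Pool.Agent.Work.MP_7794fd_co.R.Cyc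
import Pool.Agent.Work.MP_7794fd_co.R.Path
import Pool.Agent.Work.MP_7794fd_co.R.BridgePath
import Pool.Agent.Work.MP_7794fd_co.R.Equiv
import Pool.Agent.Work.MP_7794fd_co.R.Paths
import Pool.Agent.Work.MP_7794fd_co.R.Side
import Pool.Agent.Work.MP_7794fd_co.R.Assemble
import Pool.Agent.Work.MP_7794fd_co.R.Main
import Pool.Agent.Work.MP_7794fd_co.R.Two
import Pool.Agent.Work.MP_7794fd_co.R.Isol
import Pool.Agent.Work.MP_7794fd_co.T.BSplit
import Pool.Agent.Work.MP_7794fd_co.T.BPoint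
import Pool.Agent.Work.MP_7794fd_co.T.BChord
import Pool.Agent.Work.MP_7794fd_co.T.BRoot
import Pool.Agent.Work.MP_7794fd_co.T.BFar
import Pool.Agent.Work.MP_7794fd_co.T.Multi
import Pool.Agent.Work.MP_7794fd_co.T.BSwap
import Pool.Agent.Work.MP_7794fd_co.T.SlP
import Pool.Agent.Work.MP_7794fd_co.T.T1a
import Pool.Agent.Work.MP_7794fd_co.T.T1b
import Pool.Agent.Work.MP_7794fd_co.T.T2a
import Pool.Agent.Work.MP_7794fd_co.T.T2b
import Pool.Agent.Work.MP_7794fd_co.T.T2c
import Pool.Agent.Work.MP_7794fd_co.T.FSl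
import Pool.Agent.Work.MP_7794fd_co.T.Eval
import Pool.Agent.Work.MP_7794fd_co.T.Word
import Pool.Agent.Work.MP_7794fd_co.T.WordN
import Pool.Agent.Work.MP_7794fd_co.T.FFar
import Pool.Agent.Work.MP_7794fd_co.T.FF
import Pool.Agent.Work.MP_7794fd_co.T.Rot
import Pool.Agent.Work.MP_7794fd_co.T.Good
import Pool.Agent.Work.MP_7794fd_co.T.Core3
import Pool.Agent.Work.MP_7794fd_co.T.CPath
import Pool.Agent.Work.MP_7794fd_co.T.Rel
import Pool.Agent.Work.MP_7794fd_co.T.Eq0
import Pool.Agent.Work.MP_7794fd_co.T.Three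
import Pool.Agent.Work.MP_7794fd_co.T.Main3
import Pool.Agent.Work.MP_7794fd_co.T.Miss3
import Pool.Agent.Work.MP_7794fd_co.M.I_PatPair
import Pool.Agent.Work.MP_7794fd_co.M.I_BPath
import Pool.Agent.Work.MP_7794fd_co.M.I_Paths0
import Pool.Agent.Work.MP_7794fd_co.M.I_Circ
import Pool.Agent.Work.MP_7794fd_co.M.I_PatExt
import Pool.Agent.Work.MP_7794fd_co.M.I_CycEdge
import Pool.Agent.Work.MP_7794fd_co.M.I_ExtSemi
import Pool.Agent.Work.MP_7794fd_co.X.I_Br
import Pool.Agent.Work.MP_7794fd_co.X.I_CPof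
import Pool.Agent.Work.MP_7794fd_co.X.I_CPto
import Pool.Agent.Work.MP_7794fd_co.X.I_CycExt
import Pool.Agent.Work.MP_7794fd_co.X.I_ExcSemi
import Pool.Agent.Work.MP_7794fd_co.X.I_FinalX
import Pool.Agent.Work.MP_7794fd_co.X.I_Red
import Pool.Agent.Work.MP_7794fd_co.X.I_RedCyc
import Pool.Agent.Work.MP_7794fd_co.X.I_RedPat
import Pool.Agent.Work.MP_7794fd_co.X.I_RotC
import Pool.Agent.Work.MP_7794fd_co.X.I_Word
import Pool.Agent.Work.MP_7794fd_co.X.I_WordG
import Pool.Agent.Work.MP_7794fd_co.X.I_Trees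

/-! MP_7794fd_co: circuits with at most eight Tutte bridges. -/

set_option autoImplicit false

namespace Pool.Agent.Results.MP_7794fd_co.EightBridges

open Pool.Agent.Work.MP_7794fd_co Pool.Agent.Work.MP_7794fd_co.R Pool.Agent.Work.MP_7794fd_co.T
open Pool.Agent.Work.MP_7794fd_co.M (bridgeSets)

theorem stSplit : StSplit := I_Split I_Iso
theorem stRoot : StRoot := I_Root I_Diag
theorem stChord : StChord := I_Chord I_Diag (I_Contr I_Diag)
theorem stGr : StGr := I_Gr stSplit I_Lin I_Point stRoot I_Base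
theorem stIns : StOmInsert := I_OmInsert I_Swap I_Lin
theorem stOm : StOm := I_Om stGr I_BaseG
  (I_OmSlide stIns I_Lin stSplit I_Point stChord)
  (I_OmSlideY stIns I_Lin I_PointY (I_ChordY I_Diag))
theorem stCore : StCore := I_Core stGr stOm I_Kernel I_Pr
theorem stMain : StMain := I_Main stCore I_Cyc I_Equiv (I_Paths (I_BridgePath I_Path))
  (I_Assemble I_Side)

theorem stBRoot : StBRoot := I_BRoot I_Diag
theorem stSlP : StSlP := I_SlP (I_BSplit I_Iso) I_BPoint
theorem stFSl : StFSl := I_FSl I_Multi (I_T1a stBRoot stSlP) (I_T1b stSlP) (I_T2a stBRoot stSlP)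
  (I_T2b (I_BChord I_Diag (I_Contr I_Diag)) stSlP I_BSwap) (I_T2c stSlP)
theorem stFF : StFF := I_FF stFSl (I_FFar I_Multi (I_BFar I_Base)) I_Eval (I_Word I_WordN)
theorem stCore3 : StCore3 := I_Core3 stFF (I_Good I_Rot I_Kernel I_Pr)
theorem stCPath : StCPath := I_CPath I_Path
theorem stThree : StThree := I_Three stCore3 I_Cyc stCPath I_Rel I_Eq0
  (I_Paths (I_BridgePath I_Path)) (I_Assemble I_Side)
theorem stMain3 : StMain3 := I_Main3 stThree stMain stCPath I_Rel

theorem hPatExt : M.S_PatExt := M.PatExt_pf M.PatPair_pf (M.Paths0_pf M.BPath_pf) M.Circ_pf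
theorem hRed : X.S_Red := X.Red_pf X.CPof_pf X.CPto_pf X.RedCyc_pf X.RedPat_pf
theorem hWord : X.S_Word := X.Word_pf X.RotC_pf hRed X.RedCyc_pf X.Trees_pf
theorem hFinal : X.S_FinalX := X.FinalX_pf hWord (X.WordG_pf X.Br_pf)
  (X.CycExt_pf hPatExt M.ExtSemi_pf) (X.ExcSemi_pf stMain3 X.Br_pf M.BPath_pf)

/-- Let `G` be a finite cubic multigraph without loops and `C` a circuit of `G` with at most eight
Tutte bridges, each with at least two attachments (this holds if `G` is 2-connected).  Then `C` has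
a semi-extension; and `C` has an extension (a circuit `D ≠ C` through all the vertices of `C`) unless
there are seven or eight Tutte bridges, exactly two of them with three attachments and the others
with two. -/
theorem result {V E : Type} [Fintype V] [DecidableEq V] [Fintype E] [DecidableEq E] (G : MG V E)
    (hG : Cubic G) (C : Finset E) (hC : IsCircuit G C)
    (h2 : ∀ A ∈ bridgeSets G C, 2 ≤ A.ncard) (h8 : (bridgeSets G C).ncard ≤ 8) :
    (∃ D, IsSemiExt G C D) ∧
    ((∃ D, IsCircuit G D ∧ D ≠ C ∧ verts G C ⊆ verts G D) ∨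
      (7 ≤ (bridgeSets G C).ncard ∧ (∀ A ∈ bridgeSets G C, A.ncard = 2 ∨ A.ncard = 3) ∧
        {A | A ∈ bridgeSets G C ∧ A.ncard = 3}.ncard = 2)) :=
  hFinal G hG C hC h2 h8

end Pool.Agent.Results.MP_7794fd_co.EightBridges
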