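import Pool.Agent.Work.MP_7794fd_co.M.I_PastDeg
import Pool.Agent.Work.MP_7794fd_co.M.I_PastSym
import Pool.Agent.Work.MP_7794fd_co.M.I_PastSem
import Pool.Agent.Work.MP_7794fd_co.M.I_PastShort
import Pool.Agent.Work.MP_7794fd_co.M.I_PastSplit
import Pool.Agent.Work.MP_7794fd_co.M.I_OPast
import Pool.Agent.Work.MP_7794fd_co.M.I_Count2
import Pool.Agent.Work.MP_7794fd_co.M.I_InvBase
import Pool.Agent.Work.MP_7794fd_co.M.I_SemFl
import Pool.Agent.Work.MP_7794fd_co.M.I_SemSkip
import Pool.Agent.Work.MP_7794fd_co.M.I_SemLeft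
import Pool.Agent.Work.MP_7794fd_co.M.I_DegLeft
import Pool.Agent.Work.MP_7794fd_co.M.I_InvFl
import Pool.Agent.Work.MP_7794fd_co.M.I_SplitOld
import Pool.Agent.Work.MP_7794fd_co.M.I_PairOld
import Pool.Agent.Work.MP_7794fd_co.M.I_PairNew
import Pool.Agent.Work.MP_7794fd_co.M.I_PairFl
import Pool.Agent.Work.MP_7794fd_co.M.I_InvLeft
import Pool.Agent.Work.MP_7794fd_co.M.I_FutInv
import Pool.Agent.Work.MP_7794fd_co.M.I_Rev
import Pool.Agent.Work.MP_7794fd_co.M.I_Single
import Pool.Agent.Work.MP_7794fd_co.M.I_Close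
import Pool.Agent.Work.MP_7794fd_co.M.I_Theta
import Pool.Agent.Work.MP_7794fd_co.M.I_LemC
import Pool.Agent.Work.MP_7794fd_co.M.I_WordMain2
import Pool.Agent.Work.MP_7794fd_co.M.I_PatPair
import Pool.Agent.Work.MP_7794fd_co.M.I_BPath
import Pool.Agent.Work.MP_7794fd_co.M.I_Paths0
import Pool.Agent.Work.MP_7794fd_co.M.I_Circ
import Pool.Agent.Work.MP_7794fd_co.M.I_PatExt
import Pool.Agent.Work.MP_7794fd_co.M.I_CycEdge
import Pool.Agent.Work.MP_7794fd_co.M.I_Letters
import Pool.Agent.Work.MP_7794fd_co.M.I_ExtSemi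
import Pool.Agent.Work.MP_7794fd_co.M.I_Final2

/-! MP_7794fd_co: circuits with many vertices and few Tutte bridges have an extension through every
prescribed edge. -/

set_option autoImplicit false

namespace Pool.Agent.Results.MP_7794fd_co.FewBridges

open Pool.Agent.Work.MP_7794fd_co Pool.Agent.Work.MP_7794fd_co.R Pool.Agent.Work.MP_7794fd_co.M

theorem hOPast : S_OPast := OPast_pf PastSym_pf PastSplit_pf
theorem hInvFl : S_InvFl := InvFl_pf SemFl_pf DegLeft_pf
theorem hInvLeft : S_InvLeft := InvLeft_pf SemLeft_pf DegLeft_pf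
  (SplitOld_pf SemSkip_pf SemLeft_pf DegLeft_pf) (PairOld_pf SemSkip_pf)
  (PairNew_pf SemFl_pf DegLeft_pf) (PairFl_pf SemFl_pf DegLeft_pf)
theorem hFutInv : S_FutInv := FutInv_pf InvBase_pf hInvFl hInvLeft
theorem hLemC : S_LemC :=
  LemC_pf PastDeg_pf PastSem_pf (PastShort_pf PastSplit_pf) hFutInv Close_pf Theta_pf
theorem hWordMain : S_WordMain2 := WordMain2_pf Count2_pf hOPast Rev_pf PastSym_pf hLemC Single_pf
theorem hPatExt : S_PatExt := PatExt_pf PatPair_pf (Paths0_pf BPath_pf) Circ_pf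
theorem hFinal : S_Final2 := Final2_pf CycEdge_pf Letters_pf hWordMain hPatExt ExtSemi_pf

/-- Let `G` be a finite cubic multigraph without loops and `C` a circuit of `G` with `N` vertices and
`m` Tutte bridges.  If `m ^ (2 m) < 2 ^ (N - 1)` (for example, if `N > 2 m log₂ m + 1`) then for every
edge `e` of `C` there is a circuit `D ≠ C` which contains `e` and all the vertices of `C`; it is an
extension and a semi-extension of `C`. -/
theorem result {V E : Type} [Fintype V] [DecidableEq V] [Fintype E] [DecidableEq E] (G : MG V E)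
    (hG : Cubic G) (C : Finset E) (hC : IsCircuit G C)
    (h : (bridgeSets G C).ncard ^ (2 * (bridgeSets G C).ncard) < 2 ^ ((verts G C).ncard - 1)) :
    ∀ e ∈ C, ∃ D, IsCircuit G D ∧ D ≠ C ∧ verts G C ⊆ verts G D ∧ e ∈ D ∧ IsSemiExt G C D :=
  hFinal G hG C hC h

end Pool.Agent.Results.MP_7794fd_co.FewBridges
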