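import Pool.Agent.Work.MP_7794fd_co.R.Diag
import Pool.Agent.Work.MP_7794fd_co.R.Contr
import Pool.Agent.Work.MP_7794fd_co.R.Iso
import Pool.Agent.Work.MP_7794fd_co.R.Swap
import Pool.Agent.Work.MP_7794fd_co.R.Lin
import Pool.Agent.Work.MP_7794fd_co.R.Split
import Pool.Agent.Work.MP_7794fd_co.R.Point
import Pool.Agent.Work.MP_7794fd_co.R.PointY
import Pool.Agent.Work.MP_7794fd_co.R.Root
import Pool.Agent.Work.MP_7794fd_co.R.Chord
import Pool.Agent.Work.MP_7794fd_co.R.ChordY
import Pool.Agent.Work.MP_7794fd_co.R.Base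
import Pool.Agent.Work.MP_7794fd_co.R.BaseG
import Pool.Agent.Work.MP_7794fd_co.R.Gr
import Pool.Agent.Work.MP_7794fd_co.R.OmInsert
import Pool.Agent.Work.MP_7794fd_co.R.OmSlide
import Pool.Agent.Work.MP_7794fd_co.R.OmSlideY
import Pool.Agent.Work.MP_7794fd_co.R.Om
import Pool.Agent.Work.MP_7794fd_co.R.Kernel
import Pool.Agent.Work.MP_7794fd_co.R.Pr
import Pool.Agent.Work.MP_7794fd_co.R.Core
import Pool.Agent.Work.MP_7794fd_co.R.Cyc
import Pool.Agent.Work.MP_7794fd_co.R.Path
import Pool.Agent.Work.MP_7794fd_co.R.BridgePath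
import Pool.Agent.Work.MP_7794fd_co.R.Equiv
import Pool.Agent.Work.MP_7794fd_co.R.Paths
import Pool.Agent.Work.MP_7794fd_co.R.Side
import Pool.Agent.Work.MP_7794fd_co.R.Assemble
import Pool.Agent.Work.MP_7794fd_co.R.Main

/-! MP_7794fd_co: semi-extensions of a circuit through a given path. -/

set_option autoImplicit false

namespace Pool.Agent.Results.MP_7794fd_co.RootedSemiExtension

open Pool.Agent.Work.MP_7794fd_co Pool.Agent.Work.MP_7794fd_co.R

theorem stSplit : StSplit := I_Split I_Iso
theorem stRoot : StRoot := I_Root I_Diag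
theorem stChord : StChord := I_Chord I_Diag (I_Contr I_Diag)
theorem stGr : StGr := I_Gr stSplit I_Lin I_Point stRoot I_Base
theorem stIns : StOmInsert := I_OmInsert I_Swap I_Lin
theorem stOm : StOm := I_Om stGr I_BaseG
  (I_OmSlide stIns I_Lin stSplit I_Point stChord)
  (I_OmSlideY stIns I_Lin I_PointY (I_ChordY I_Diag))
theorem stCore : StCore := I_Core stGr stOm I_Kernel I_Pr
theorem stMain : StMain := I_Main stCore I_Cyc I_Equiv (I_Paths (I_BridgePath I_Path))
  (I_Assemble I_Side)

/-- Let `G` be a finite cubic multigraph without loops, `C` a circuit of `G` and `P` a `C`-path with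
ends `x` and `y` (a chord of `C`, or a path whose ends lie on `C` and which is internally disjoint
from `C`).  If at most one component of `G - V(C) - V(P)` has more than two neighbours on `C`, then
`C` has a semi-extension which contains `P`. -/
theorem result {V E : Type} [Fintype V] [DecidableEq V] [Fintype E] [DecidableEq E] (G : MG V E)
    (hG : Cubic G) (C P : Finset E) (x y : V) (hC : IsCircuit G C) (hP : IsCPath G C P x y)
    (h : ∀ u u', u ∉ verts G (C ∪ P) → u' ∉ verts G (C ∪ P) → 3 ≤ (att G C P u).ncard →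
      3 ≤ (att G C P u').ncard → Reach G (verts G (C ∪ P))ᶜ Finset.univ u u') :
    ∃ D, IsSemiExt G C D ∧ P ⊆ D :=
  stMain G hG C P x y hC hP h

end Pool.Agent.Results.MP_7794fd_co.RootedSemiExtension
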