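import Pool.Agent.Work.MP_7794fd_co.R.Diag
import Pool.Agent.Work.MP_7794fd_co.R.Contr
import Pool.Agent.Work.MP_7794fd_co.R.Iso
import Pool.Agent.Work.MP_7794fd_co.R.Swap
import Pool.Agent.Work.MP_7794fd_co.R.Lin
import Pool.Agent.Work.MP_7794fd_co.R.Split
import Pool.Agent.Work.MP_7794fd_co.R.Point
import Pool.Agent.Work.MP_7794fd_co.R.PointY
import Pool.Agent.Work.MP_7794fd_co.R.Root
import Pool.Agent.Work.MP_7794fd_co.R.Chord
import Pool.Agent.Work.MP_7794fd_co.R.ChordY
import Pool.Agent.Work.MP_7794fd_co.R.Base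
import Pool.Agent.Work.MP_7794fd_co.R.BaseG
import Pool.Agent.Work.MP_7794fd_co.R.Gr
import Pool.Agent.Work.MP_7794fd_co.R.OmInsert
import Pool.Agent.Work.MP_7794fd_co.R.OmSlide
import Pool.Agent.Work.MP_7794fd_co.R.OmSlideY
import Pool.Agent.Work.MP_7794fd_co.R.Om
import Pool.Agent.Work.MP_7794fd_co.R.Kernel
import Pool.Agent.Work.MP_7794fd_co.R.Pr
import Pool.Agent.Work.MP_7794fd_co.R.Core
import Pool.Agent.Work.MP_7794fd_co.R.Cyc
import Pool.Agent.Work.MP_7794fd_co.R.Path
import Pool.Agent.Work.MP_7794fd_co.R.BridgePath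
import Pool.Agent.Work.MP_7794fd_co.R.Equiv
import Pool.Agent.Work.MP_7794fd_co.R.Paths
import Pool.Agent.Work.MP_7794fd_co.R.Side
import Pool.Agent.Work.MP_7794fd_co.R.Assemble
import Pool.Agent.Work.MP_7794fd_co.R.Main
import Pool.Agent.Work.MP_7794fd_co.R.Two
import Pool.Agent.Work.MP_7794fd_co.R.Isol
import Pool.Agent.Work.MP_7794fd_co.T.BSplit
import Pool.Agent.Work.MP_7794fd_co.T.BPoint
import Pool.Agent.Work.MP_7794fd_co.T.BChord
import Pool.Agent.Work.MP_7794fd_co.T.BRoot
import Pool.Agent.Work.MP_7794fd_co.T.BFar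
import Pool.Agent.Work.MP_7794fd_co.T.Multi
import Pool.Agent.Work.MP_7794fd_co.T.BSwap
import Pool.Agent.Work.MP_7794fd_co.T.SlP
import Pool.Agent.Work.MP_7794fd_co.T.T1a
import Pool.Agent.Work.MP_7794fd_co.T.T1b
import Pool.Agent.Work.MP_7794fd_co.T.T2a
import Pool.Agent.Work.MP_7794fd_co.T.T2b
import Pool.Agent.Work.MP_7794fd_co.T.T2c
import Pool.Agent.Work.MP_7794fd_co.T.FSl
import Pool.Agent.Work.MP_7794fd_co.T.Eval
import Pool.Agent.Work.MP_7794fd_co.T.Word
import Pool.Agent.Work.MP_7794fd_co.T.WordN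
import Pool.Agent.Work.MP_7794fd_co.T.FFar
import Pool.Agent.Work.MP_7794fd_co.T.FF
import Pool.Agent.Work.MP_7794fd_co.T.Rot
import Pool.Agent.Work.MP_7794fd_co.T.Good
import Pool.Agent.Work.MP_7794fd_co.T.Core3
import Pool.Agent.Work.MP_7794fd_co.T.CPath
import Pool.Agent.Work.MP_7794fd_co.T.Rel
import Pool.Agent.Work.MP_7794fd_co.T.Eq0
import Pool.Agent.Work.MP_7794fd_co.T.Three
import Pool.Agent.Work.MP_7794fd_co.T.Main3
import Pool.Agent.Work.MP_7794fd_co.T.Miss3

/-! MP_7794fd_co: semi-extensions of circuits with at most three bridges of three attachments. -/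

set_option autoImplicit false

namespace Pool.Agent.Results.MP_7794fd_co.ThreeBridges

open Pool.Agent.Work.MP_7794fd_co Pool.Agent.Work.MP_7794fd_co.R Pool.Agent.Work.MP_7794fd_co.T

theorem stSplit : StSplit := I_Split I_Iso
theorem stRoot : StRoot := I_Root I_Diag
theorem stChord : StChord := I_Chord I_Diag (I_Contr I_Diag)
theorem stGr : StGr := I_Gr stSplit I_Lin I_Point stRoot I_Base
theorem stIns : StOmInsert := I_OmInsert I_Swap I_Lin
theorem stOm : StOm := I_Om stGr I_BaseG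
  (I_OmSlide stIns I_Lin stSplit I_Point stChord)
  (I_OmSlideY stIns I_Lin I_PointY (I_ChordY I_Diag))
theorem stCore : StCore := I_Core stGr stOm I_Kernel I_Pr
theorem stMain : StMain := I_Main stCore I_Cyc I_Equiv (I_Paths (I_BridgePath I_Path))
  (I_Assemble I_Side)

theorem stBRoot : StBRoot := I_BRoot I_Diag
theorem stSlP : StSlP := I_SlP (I_BSplit I_Iso) I_BPoint
theorem stFSl : StFSl := I_FSl I_Multi (I_T1a stBRoot stSlP) (I_T1b stSlP) (I_T2a stBRoot stSlP)
  (I_T2b (I_BChord I_Diag (I_Contr I_Diag)) stSlP I_BSwap) (I_T2c stSlP)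
theorem stFF : StFF := I_FF stFSl (I_FFar I_Multi (I_BFar I_Base)) I_Eval (I_Word I_WordN)
theorem stCore3 : StCore3 := I_Core3 stFF (I_Good I_Rot I_Kernel I_Pr)
theorem stCPath : StCPath := I_CPath I_Path
theorem stThree : StThree := I_Three stCore3 I_Cyc stCPath I_Rel I_Eq0
  (I_Paths (I_BridgePath I_Path)) (I_Assemble I_Side)
theorem stMain3 : StMain3 := I_Main3 stThree stMain stCPath I_Rel
theorem stMiss3 : StMiss3 := I_Miss3 stThree stMain
  (I_Two stMain) (I_Isol stMain) stCPath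

/-- Let `G` be a finite cubic multigraph without loops and `C` a circuit of `G`.

(1) If `C` has a `C`-path, every component of `G - V(C)` has at most three neighbours on `C`, and
at most three components of `G - V(C)` have exactly three neighbours on `C`, then `C` has a
semi-extension.

(2) If `C` misses at most three vertices of `G`, then `C` has a semi-extension. -/
theorem result {V E : Type} [Fintype V] [DecidableEq V] [Fintype E] [DecidableEq E] (G : MG V E)
    (hG : Cubic G) (C : Finset E) (hC : IsCircuit G C) :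
    ((∃ P x y, IsCPath G C P x y) → (∀ u, u ∉ verts G C → (att G C ∅ u).ncard ≤ 3) →
      (∀ f : Fin 4 → V, (∀ i, f i ∉ verts G C ∧ (att G C ∅ (f i)).ncard = 3) →
        ∃ i j, i ≠ j ∧ Reach G (verts G C)ᶜ Finset.univ (f i) (f j)) →
      ∃ D, IsSemiExt G C D) ∧
    (((verts G C)ᶜ).ncard ≤ 3 → ∃ D, IsSemiExt G C D) :=
  ⟨stMain3 G hG C hC, stMiss3 G hG C hC⟩

end Pool.Agent.Results.MP_7794fd_co.ThreeBridges
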